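import Pool.Agent.H37.CTN.Stmts
import Pool.Agent.H46.CTN.FN1
import Pool.Agent.H72.CTN.FN2
import Pool.Agent.H17.CTN.N41

/-!
# General form of the rows P41 (board `cto`) and R41 (board `ctp`): covers given by
`T ^ (q ^ n) + α T ^ (q ^ (n - 1)) + β T ^ q + T`, and the orders of the roots at infinity
-/

set_option autoImplicit false

namespace Pool.CND

open Finset Polynomial

namespace G41

section places

variable {k L : Type} [Field k] [Field L] [Algebra k L] (P : Place k L)

/-- Frobenius -/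
def Fro (L : Type) [Field L] (q : ℕ) : Prop :=
  ∀ (j : ℕ) (x y : L), (x + y) ^ q ^ j = x ^ q ^ j + y ^ q ^ j

theorem fro_of {L : Type} [Field L] {p f q : ℕ} (hp : p.Prime) (hL : CharP L p)
    (hq : q = p ^ f) : Fro L q := by
  intro j x y
  have : Fact p.Prime := ⟨hp⟩
  have e : q ^ j = p ^ (f * j) := by rw [hq, pow_mul]
  rw [e]
  exact add_pow_expChar_pow x y p _

theorem no4 {x y z w : L} (hx : x ≠ 0) (hy : P.Ge y (P.ord x + 1)) (hz : P.Ge z (P.ord x + 1))
    (hw : P.Ge w (P.ord x + 1)) (h : x + y + z + w = 0) : False := by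
  have h1 := (P.ord_add_of_lt hx (P.ge_add (P.ge_add hy hz) hw)).1
  apply h1
  linear_combination h

/-- the quotient of two roots, when the terms `1`, `2` have the least order -/
theorem quot {q : ℕ} (hq : 1 ≤ q) (hfr : Fro L q) {c1 c2 c3 c4 x y : L} {n1 n2 n3 n4 : ℕ}
    (hc2 : c2 ≠ 0)
    (hx : c1 * x ^ q ^ n1 + c2 * x ^ q ^ n2 + c3 * x ^ q ^ n3 + c4 * x ^ q ^ n4 = 0)
    (hy : c1 * y ^ q ^ n1 + c2 * y ^ q ^ n2 + c3 * y ^ q ^ n3 + c4 * y ^ q ^ n4 = 0)
    (hy0 : y ≠ 0) (o M : ℤ) (ho : P.ord y = o)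
    (g1 : P.Ge c1 (M - (q : ℤ) ^ n1 * o)) (g2 : P.ord c2 = M - (q : ℤ) ^ n2 * o)
    (g3 : P.Ge c3 (M + 1 - (q : ℤ) ^ n3 * o)) (g4 : P.Ge c4 (M + 1 - (q : ℤ) ^ n4 * o))
    (a : k) (ha : P.Ge (x / y - algebraMap k L a) 1) : a ^ q ^ n1 = a ^ q ^ n2 := by
  have hqr0 : ∀ j, q ^ j ≠ 0 := fun j => pow_ne_zero _ (by omega)
  have hQ : ∀ n : ℕ, (1 : ℤ) ≤ (q : ℤ) ^ n := fun n => by
    have h1 : 1 ≤ q ^ n := Nat.one_le_pow _ _ hq
    exact_mod_cast h1
  obtain ⟨z, hz⟩ : ∃ z : L, z = x - algebraMap k L a * y := ⟨_, rfl⟩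
  have hzge : P.Ge z (o + 1) := by
    have h1 : z = (x / y - algebraMap k L a) * y := by
      rw [hz]
      field_simp
    rw [h1, add_comm, ← ho]
    exact P.ge_mul ha (P.ge_ord y)
  have hxz : x = algebraMap k L a * y + z := by
    rw [hz]
    ring
  have hyge : P.Ge y o := by
    rw [← ho]
    exact P.ge_ord y
  have hxge : P.Ge x o := by
    rw [hxz]
    exact P.ge_add (N41.ge_cmul P a hyge) (P.ge_mono hzge (by omega))
  have e : ∀ n : ℕ, x ^ q ^ n = algebraMap k L (a ^ q ^ n) * y ^ q ^ n + z ^ q ^ n := by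
    intro n
    conv_lhs => rw [hxz]
    rw [hfr, mul_pow, map_pow]
  have hpow : ∀ {u : L} {m : ℤ} (n : ℕ), P.Ge u m → P.Ge (u ^ q ^ n) ((q : ℤ) ^ n * m) := by
    intro u m n hu
    have h1 := N41.ge_pow P hu (j := q ^ n) (hqr0 n)
    push_cast at h1
    exact h1
  have key : algebraMap k L (a ^ q ^ n2 - a ^ q ^ n1) * (c2 * y ^ q ^ n2) =
      -(c1 * z ^ q ^ n1 + c2 * z ^ q ^ n2 +
        c3 * (x ^ q ^ n3 - algebraMap k L (a ^ q ^ n1) * y ^ q ^ n3) +
        c4 * (x ^ q ^ n4 - algebraMap k L (a ^ q ^ n1) * y ^ q ^ n4)) := by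
    rw [map_sub]
    linear_combination hx - algebraMap k L (a ^ q ^ n1) * hy - c1 * e n1 - c2 * e n2
  have hne : c2 * y ^ q ^ n2 ≠ 0 := mul_ne_zero hc2 (pow_ne_zero _ hy0)
  have hord : P.ord (c2 * y ^ q ^ n2) = M := by
    rw [P.ord_mul _ _ hc2 (pow_ne_zero _ hy0), P.ord_pow hy0, ho, g2]
    push_cast
    ring
  have hge : P.Ge (algebraMap k L (a ^ q ^ n2 - a ^ q ^ n1) * (c2 * y ^ q ^ n2))
      (P.ord (c2 * y ^ q ^ n2) + 1) := by
    rw [key, hord]
    have gd : ∀ n : ℕ, P.Ge (x ^ q ^ n - algebraMap k L (a ^ q ^ n1) * y ^ q ^ n)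
        ((q : ℤ) ^ n * o) := fun n =>
      P.ge_sub (hpow n hxge) (N41.ge_cmul P _ (hpow n hyge))
    refine P.ge_neg (P.ge_add (P.ge_add (P.ge_add ?_ ?_) ?_) ?_)
    · refine P.ge_mono (P.ge_mul g1 (hpow n1 hzge)) ?_
      have := hQ n1
      linarith [(by ring : M - (q : ℤ) ^ n1 * o + (q : ℤ) ^ n1 * (o + 1) = M + (q : ℤ) ^ n1)]
    · refine P.ge_mono (P.ge_mul (Or.inr g2.ge) (hpow n2 hzge)) ?_
      have := hQ n2
      linarith [(by ring : M - (q : ℤ) ^ n2 * o + (q : ℤ) ^ n2 * (o + 1) = M + (q : ℤ) ^ n2)]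
    · refine P.ge_mono (P.ge_mul g3 (gd n3)) ?_
      linarith
    · refine P.ge_mono (P.ge_mul g4 (gd n4)) ?_
      linarith
  have h0 := N41.coef0 P hne hge
  exact (sub_eq_zero.1 h0).symm

/-- Frobenius is injective -/
theorem fro_inj {q : ℕ} (hq : 1 ≤ q) (hfr : Fro k q) {a : k} {n d : ℕ}
    (h : a ^ q ^ n = a ^ q ^ (n + d)) : a ^ q ^ d + (-1) * a = 0 := by
  have h1 := hfr n (a ^ q ^ d - a) a
  rw [sub_add_cancel, ← pow_mul, ← pow_add, add_comm d n, ← h] at h1
  have h2 : (a ^ q ^ d - a) ^ q ^ n = 0 := by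
    linear_combination -h1
  have h3 : a ^ q ^ d - a = 0 := (pow_eq_zero_iff (pow_ne_zero _ (by omega))).1 h2
  linear_combination h3

/-- the possible orders of a root -/
theorem kinds {q s : ℕ} (hq : 2 ≤ q) {uA uB τ : ℤ} (h1 : 0 < uA) (h2 : uA < uB)
    (h3 : (uB - uA) * ((q : ℤ) ^ (s + 1) * ((q : ℤ) - 1)) < uA * ((q : ℤ) ^ (s + 1) - 1))
    (hτ : τ < 0) {x A B : L} (hx : x ≠ 0) (hA : A ≠ 0) (hB : B ≠ 0) (hA' : P.ord A = uA * τ)
    (hB' : P.ord B = uB * τ)
    (hrel : x ^ q ^ (s + 3) + A * x ^ q ^ (s + 2) + B * x ^ q + x = 0) :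
    ((q : ℤ) - 1) * P.ord x = -(uB * τ) ∨
    (q : ℤ) * ((q : ℤ) ^ (s + 1) - 1) * P.ord x = (uB - uA) * τ ∨
    (q : ℤ) * (q : ℤ) ^ (s + 1) * ((q : ℤ) - 1) * P.ord x = uA * τ := by
  have hqz : (2 : ℤ) ≤ q := by exact_mod_cast hq
  obtain ⟨Q, hQ⟩ : ∃ Q : ℤ, Q = (q : ℤ) ^ (s + 1) := ⟨_, rfl⟩
  have hQ2 : 2 ≤ Q := by
    have h4 : 2 ≤ q ^ (s + 1) := hq.trans (Nat.le_self_pow (by omega) q)
    rw [hQ]
    exact_mod_cast h4
  rw [← hQ] at h3 ⊢
  obtain ⟨o, ho⟩ : ∃ o : ℤ, o = P.ord x := ⟨_, rfl⟩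
  rw [← ho]
  have o1 : P.ord (x ^ q ^ (s + 3)) = q * q * Q * o := by
    rw [P.ord_pow hx, ← ho, hQ]
    push_cast
    ring
  have o2 : P.ord (A * x ^ q ^ (s + 2)) = uA * τ + q * Q * o := by
    rw [P.ord_mul _ _ hA (pow_ne_zero _ hx), P.ord_pow hx, ← ho, hQ, hA']
    push_cast
    ring
  have o3 : P.ord (B * x ^ q) = uB * τ + q * o := by
    rw [P.ord_mul _ _ hB (pow_ne_zero _ hx), P.ord_pow hx, ← ho, hB']
  have n1 : x ^ q ^ (s + 3) ≠ 0 := pow_ne_zero _ hx
  have n2 : A * x ^ q ^ (s + 2) ≠ 0 := mul_ne_zero hA (pow_ne_zero _ hx)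
  have n3 : B * x ^ q ≠ 0 := mul_ne_zero hB (pow_ne_zero _ hx)
  have hq1 : (0 : ℤ) < (q : ℤ) - 1 := by linarith
  have hQ1 : (0 : ℤ) < Q - 1 := by linarith
  -- the differences
  have i1 : (q : ℤ) * Q * ((q : ℤ) - 1) * o - uA * τ < 0 →
      (q : ℤ) * (Q - 1) * o - (uB - uA) * τ < 0 := by
    intro h
    by_contra hc
    rw [not_lt] at hc
    have m1 : (Q - 1) * ((q : ℤ) * Q * ((q : ℤ) - 1) * o - uA * τ) < 0 :=
      mul_neg_of_pos_of_neg hQ1 h
    have m2 : (uA * (Q - 1) - (uB - uA) * (Q * ((q : ℤ) - 1))) * τ < 0 :=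
      mul_neg_of_pos_of_neg (by linarith) hτ
    have m3 : 0 ≤ (Q * ((q : ℤ) - 1)) * ((q : ℤ) * (Q - 1) * o - (uB - uA) * τ) :=
      mul_nonneg (mul_nonneg (by linarith) hq1.le) hc
    have m4 : (Q * ((q : ℤ) - 1)) * ((q : ℤ) * (Q - 1) * o - (uB - uA) * τ) =
        (Q - 1) * ((q : ℤ) * Q * ((q : ℤ) - 1) * o - uA * τ) +
          (uA * (Q - 1) - (uB - uA) * (Q * ((q : ℤ) - 1))) * τ := by ring
    linarith
  have i2 : (q : ℤ) * (Q - 1) * o - (uB - uA) * τ < 0 → ((q : ℤ) - 1) * o + uB * τ < 0 := by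
    intro h
    have m1 : (uB - uA) * τ < 0 := mul_neg_of_pos_of_neg (by linarith) hτ
    have m2 : uB * τ < 0 := mul_neg_of_pos_of_neg (by linarith) hτ
    have ho0 : o < 0 := by
      by_contra hc
      rw [not_lt] at hc
      have : 0 ≤ (q : ℤ) * (Q - 1) * o := mul_nonneg (mul_nonneg (by linarith) hQ1.le) hc
      linarith
    have m3 : ((q : ℤ) - 1) * o < 0 := mul_neg_of_pos_of_neg hq1 ho0
    linarith
  have t12 : (q : ℤ) * q * Q * o - (uA * τ + q * Q * o) =
      (q : ℤ) * Q * ((q : ℤ) - 1) * o - uA * τ := by ring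
  have t23 : uA * τ + q * Q * o - (uB * τ + q * o) =
      (q : ℤ) * (Q - 1) * o - (uB - uA) * τ := by ring
  have t34 : uB * τ + q * o - o = ((q : ℤ) - 1) * o + uB * τ := by ring
  rcases lt_trichotomy ((q : ℤ) * Q * ((q : ℤ) - 1) * o - uA * τ) 0 with hc | hc | hc
  · exfalso
    have d2 := i1 hc
    have d3 := i2 d2
    refine no4 P (x := x ^ q ^ (s + 3)) (y := A * x ^ q ^ (s + 2)) (z := B * x ^ q) (w := x) n1
      (Or.inr ?_) (Or.inr ?_) (Or.inr ?_) hrel
    · rw [o1, o2]; linarith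
    · rw [o1, o3]; linarith
    · rw [o1, ← ho]; linarith
  · right; right
    linarith
  · rcases lt_trichotomy ((q : ℤ) * (Q - 1) * o - (uB - uA) * τ) 0 with hb | hb | hb
    · exfalso
      have d3 := i2 hb
      refine no4 P (x := A * x ^ q ^ (s + 2)) (y := x ^ q ^ (s + 3)) (z := B * x ^ q) (w := x) n2
        (Or.inr ?_) (Or.inr ?_) (Or.inr ?_) (by linear_combination hrel)
      · rw [o1, o2]; linarith
      · rw [o2, o3]; linarith
      · rw [o2, ← ho]; linarith
    · right; left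
      linarith
    · rcases lt_trichotomy (((q : ℤ) - 1) * o + uB * τ) 0 with hd | hd | hd
      · exfalso
        refine no4 P (x := B * x ^ q) (y := x ^ q ^ (s + 3)) (z := A * x ^ q ^ (s + 2)) (w := x) n3
          (Or.inr ?_) (Or.inr ?_) (Or.inr ?_) (by linear_combination hrel)
        · rw [o1, o3]; linarith
        · rw [o2, o3]; linarith
        · rw [o3, ← ho]; linarith
      · left
        linarith
      · exfalso
        refine no4 P (x := x) (y := x ^ q ^ (s + 3)) (z := A * x ^ q ^ (s + 2)) (w := B * x ^ q) hx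
          (Or.inr ?_) (Or.inr ?_) (Or.inr ?_) (by linear_combination hrel)
        · rw [o1, ← ho]; linarith
        · rw [o2, ← ho]; linarith
        · rw [o3, ← ho]; linarith

end places

section linear

variable {k F L : Type} [Field k] [Field F] [Field L] [Algebra F k] [Algebra k L]

theorem rt_pow {p f q : ℕ} (hp : p.Prime) (hL : CharP L p) (hq : q = p ^ f) (hq2 : 2 ≤ q)
    (hF : Nat.card F = q) {n : ℕ} (X : Fin n → L) (c : Fin n → F) (j : ℕ) :
    N41.rt (k := k) X c ^ q ^ j = ∑ i, cst k F L (c i) * X i ^ q ^ j := by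
  have : Fact p.Prime := ⟨hp⟩
  have e : q ^ j = p ^ (f * j) := by rw [hq, pow_mul]
  unfold N41.rt
  have h1 := sum_pow_char_pow p (f * j) (s := (univ : Finset (Fin n)))
    (f := fun i => cst k F L (c i) * X i)
  rw [← e] at h1
  rw [h1]
  refine sum_congr rfl fun i _ => ?_
  rw [mul_pow, N41.cst_pow hq2 hF]

theorem rt_rel {p f q s : ℕ} (hp : p.Prime) (hL : CharP L p) (hq : q = p ^ f) (hq2 : 2 ≤ q)
    (hF : Nat.card F = q) (A B : L) (X : Fin (s + 3) → L)
    (hrel : ∀ i, X i ^ q ^ (s + 3) + A * X i ^ q ^ (s + 2) + B * X i ^ q + X i = 0)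
    (c : Fin (s + 3) → F) :
    N41.rt (k := k) X c ^ q ^ (s + 3) + A * N41.rt (k := k) X c ^ q ^ (s + 2) +
      B * N41.rt (k := k) X c ^ q + N41.rt (k := k) X c = 0 := by
  have h2 : N41.rt (k := k) X c ^ q = ∑ i, cst k F L (c i) * X i ^ q := by
    have := rt_pow (k := k) hp hL hq hq2 hF X c 1
    simpa only [pow_one] using this
  rw [rt_pow hp hL hq hq2 hF, rt_pow hp hL hq hq2 hF, h2]
  unfold N41.rt
  rw [mul_sum, ← sum_add_distrib, mul_sum, ← sum_add_distrib, ← sum_add_distrib]
  refine sum_eq_zero fun i _ => ?_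
  linear_combination (cst k F L (c i)) * hrel i

/-- change of basis of the cover -/
theorem ncb {n : ℕ} (t : L) (X : Fin n → L)
    (G₀ : Subgroup (Matrix.SpecialLinearGroup (Fin n) F)) (ρ : G₀ →* (L ≃ₐ[k] L))
    (h : Matrix (Fin n) (Fin n) F) (hC : NCover k F L t X G₀ ρ) (hh : h.det ≠ 0) :
    ∃ (G₁ : Subgroup (Matrix.SpecialLinearGroup (Fin n) F)) (ρ₁ : G₁ →* (L ≃ₐ[k] L)),
      NCover k F L t (fun i => ∑ j, cst k F L (h j i) * X j) G₁ ρ₁ := by
  set κ : F →+* L := (algebraMap k L).comp (algebraMap F k) with hκ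
  set G₁ := G₀.comap (fn2conj h hh) with hG₁
  let φ : G₁ →* G₀ := (fn2conj h hh).subgroupComap G₀
  refine ⟨G₁, ρ.comp φ, ⟨?_, ?_⟩⟩
  · intro g i
    have hm : (φ g).1.1 = h * g.1.1 * h⁻¹ := rfl
    have e : h⁻¹ * h = 1 := Matrix.nonsing_inv_mul _ (isUnit_iff_ne_zero.2 hh)
    have hm2 : (φ g).1.1 * h = h * g.1.1 := by
      rw [hm, Matrix.mul_assoc, e, Matrix.mul_one]
    show ρ (φ g) (∑ j, κ (h j i) * X j) = ∑ j, κ (g.1.1 j i) * ∑ l, κ (h l j) * X l
    rw [fn2sum κ h g.1.1 X i, ← hm2, ← fn2sum κ (φ g).1.1 h X i, map_sum]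
    refine Finset.sum_congr rfl fun j _ => ?_
    rw [map_mul, hC.act (φ g) j]
    congr 1
    exact (ρ (φ g)).commutes _
  · have hsurj : ∀ g₀ : G₀, ∃ g : G₁, φ g = g₀ := by
      intro g₀
      obtain ⟨g', hg'⟩ := fn2conj_surj h hh g₀.1
      refine ⟨⟨g', ?_⟩, ?_⟩
      · rw [hG₁, Subgroup.mem_comap, hg']
        exact g₀.2
      · exact Subtype.ext hg'
    have hinj : ∀ g : G₁, φ g = 1 → g = 1 := by
      intro g hg
      apply Subtype.ext
      exact fn2conj_inj h hh g.1 (congrArg Subtype.val hg)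
    refine ⟨?_, hC.cov.trans, ?_, ?_⟩
    · rw [injective_iff_map_eq_one]
      intro g hg
      apply hinj
      apply hC.cov.inj
      rw [map_one]
      exact hg
    · intro x
      rw [← hC.cov.fixed x]
      constructor
      · intro hx g₀
        obtain ⟨g, rfl⟩ := hsurj g₀
        exact hx g
      · intro hx g
        exact hx (φ g)
    · intro P hP g hg
      exact hinj g (hC.cov.unram P hP (φ g) hg)

theorem ind_basis {n : ℕ} (X : Fin n → L)
    (hind : ∀ c : Fin n → F, ∑ i, cst k F L (c i) * X i = 0 → c = 0)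
    (h : Matrix (Fin n) (Fin n) F) (hh : h.det ≠ 0) (c : Fin n → F)
    (hc : ∑ i, cst k F L (c i) * (∑ j, cst k F L (h j i) * X j) = 0) : c = 0 := by
  set κ : F →+* L := (algebraMap k L).comp (algebraMap F k) with hκ
  have h1 : ∑ i, κ (c i) * ∑ j, κ (h j i) * X j = ∑ j, κ (h.mulVec c j) * X j := by
    simp only [Matrix.mulVec, dotProduct, map_sum, map_mul, Finset.sum_mul, Finset.mul_sum]
    rw [Finset.sum_comm]
    refine Finset.sum_congr rfl fun l _ => Finset.sum_congr rfl fun j _ => ?_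
    ring
  have h2 : h.mulVec c = 0 := hind _ (h1 ▸ hc)
  by_contra hne
  exact hh (Matrix.exists_mulVec_eq_zero_iff.1 ⟨c, hne, h2⟩)

end linear

/-- the cover, and the orders of its roots -/
theorem main (hEXI : S_EXI) (p : ℕ) (k F : Type) [Field k] [IsAlgClosed k] [Field F] [Algebra F k]
    (f q s : ℕ) (α β : k[X]) (uA uB : ℤ) (hp : p.Prime) (hch : CharP k p) (hf : 1 ≤ f)
    (hq : q = p ^ f) (hF : Nat.card F = q)
    (hα : ∀ (L : Type) [Field L] [Algebra k L] (t : L) (P : Place k L), t ≠ 0 → P.ord t < 0 →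
      aeval t α ≠ 0 ∧ P.ord (aeval t α) = uA * P.ord t)
    (hβ : ∀ (L : Type) [Field L] [Algebra k L] (t : L) (P : Place k L), t ≠ 0 → P.ord t < 0 →
      aeval t β ≠ 0 ∧ P.ord (aeval t β) = uB * P.ord t)
    (u1 : 0 < uA) (u2 : uA < uB)
    (u3 : (uB - uA) * ((q : ℤ) ^ (s + 1) * ((q : ℤ) - 1)) < uA * ((q : ℤ) ^ (s + 1) - 1)) :
    ∃ (L : Type) (_ : Field L) (_ : Algebra k L) (t : L) (X : Fin (s + 3) → L)
      (G₀ : Subgroup (Matrix.SpecialLinearGroup (Fin (s + 3)) F)) (ρ : G₀ →* (L ≃ₐ[k] L))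
      (P : Place k L),
      (∀ i, X i ^ q ^ (s + 3) + aeval t α * X i ^ q ^ (s + 2) + aeval t β * X i ^ q + X i = 0) ∧
      (∀ c : Fin (s + 3) → F, ∑ i, cst k F L (c i) * X i = 0 → c = 0) ∧ Transcendental k t ∧
      NCover k F L t X G₀ ρ ∧ P.ord t < 0 ∧
      ((q : ℤ) - 1) * P.ord (X 0) = -(uB * P.ord t) ∧
      (∀ c : Fin (s + 3) → F, c (Fin.last (s + 2)) = 0 → (∃ i, i ≠ 0 ∧ c i ≠ 0) →
        (q : ℤ) * ((q : ℤ) ^ (s + 1) - 1) * P.ord (∑ i, cst k F L (c i) * X i) =
          (uB - uA) * P.ord t) ∧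
      (∀ c : Fin (s + 3) → F, c (Fin.last (s + 2)) ≠ 0 →
        (q : ℤ) * (q : ℤ) ^ (s + 1) * ((q : ℤ) - 1) * P.ord (∑ i, cst k F L (c i) * X i) =
          uA * P.ord t) := by
  classical
  have hq2 : 2 ≤ q := by
    rw [hq]
    calc 2 ≤ p := hp.two_le
      _ = p ^ 1 := (pow_one p).symm
      _ ≤ p ^ f := Nat.pow_le_pow_right hp.pos hf
  have hqz : (2 : ℤ) ≤ q := by exact_mod_cast hq2
  obtain ⟨L, iL, iA, t, X, G₀, ρ, hrel0, hind, htr, hC⟩ :=
    FN1.cover p k F f q (s + 3)
      (fun l => (if l = 0 then 1 else 0) + (if l = s + 2 then α else 0) +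
        (if l = 1 then β else 0)) (by omega) (by simp) hp hch hf hq hF
  have hrelX : ∀ i, X i ^ q ^ (s + 3) + aeval t α * X i ^ q ^ (s + 2) + aeval t β * X i ^ q +
      X i = 0 := by
    intro i
    have h := hrel0 i
    unfold FN1.lz at h
    have e : ∀ l : ℕ, aeval t ((if l = 0 then (1 : k[X]) else 0) + (if l = s + 2 then α else 0) +
        (if l = 1 then β else 0)) * X i ^ q ^ l = (if l = 0 then X i ^ q ^ l else 0) +
        (if l = s + 2 then aeval t α * X i ^ q ^ l else 0) +
        (if l = 1 then aeval t β * X i ^ q ^ l else 0) := by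
      intro l
      simp only [map_add]
      have e1 : aeval t (if l = 0 then (1 : k[X]) else 0) = if l = 0 then (1 : L) else 0 := by
        split_ifs <;> simp
      have e2 : aeval t (if l = s + 2 then α else 0) =
          if l = s + 2 then aeval t α else 0 := by
        split_ifs <;> simp
      have e3 : aeval t (if l = 1 then β else 0) =
          if l = 1 then aeval t β else 0 := by
        split_ifs <;> simp
      rw [e1, e2, e3, add_mul, add_mul, ite_mul, ite_mul, ite_mul, one_mul, zero_mul]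
    rw [Finset.sum_congr rfl fun l _ => e l, Finset.sum_add_distrib, Finset.sum_add_distrib,
      Finset.sum_ite_eq', Finset.sum_ite_eq', Finset.sum_ite_eq',
      if_pos (Finset.mem_range.2 (by omega)), if_pos (Finset.mem_range.2 (by omega)),
      if_pos (Finset.mem_range.2 (by omega)), pow_zero, pow_one] at h
    linear_combination h
  have : Finite F := Nat.finite_of_card_ne_zero (by omega)
  have : Finite (Matrix.SpecialLinearGroup (Fin (s + 3)) F) :=
    inferInstanceAs (Finite {A : Matrix (Fin (s + 3)) (Fin (s + 3)) F // A.det = 1})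
  have : Finite G₀ := inferInstance
  obtain ⟨hfin, hsep⟩ := TWI.fin_sep ρ t hC.cov
  obtain ⟨P, hP⟩ := hEXI k L t hC.cov.trans hfin hsep
  have hchL : CharP L p := charP_of_injective_algebraMap (algebraMap k L).injective p
  have hfrL : Fro L q := fro_of hp hchL hq
  have hfrk : Fro k q := fro_of hp hch hq
  have ht0 : t ≠ 0 := by
    intro h
    apply htr
    rw [h]
    exact isAlgebraic_zero
  obtain ⟨hA0, hAo⟩ := hα L t P ht0 hP
  obtain ⟨hB0, hBo⟩ := hβ L t P ht0 hP
  obtain ⟨A, hA⟩ : ∃ A : L, A = aeval t α := ⟨_, rfl⟩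
  obtain ⟨B, hB⟩ : ∃ B : L, B = aeval t β := ⟨_, rfl⟩
  rw [← hA] at hA0 hAo
  rw [← hB] at hB0 hBo
  have hrel : ∀ c : Fin (s + 3) → F, N41.rt (k := k) X c ^ q ^ (s + 3) +
      A * N41.rt (k := k) X c ^ q ^ (s + 2) + B * N41.rt (k := k) X c ^ q +
      N41.rt (k := k) X c = 0 := by
    rw [hA, hB]
    exact rt_rel hp hchL hq hq2 hF _ _ X hrelX
  have hinj : ∀ c : Fin (s + 3) → F, N41.rt (k := k) X c = 0 → c = 0 := fun c h => hind c h
  obtain ⟨τ, hτ⟩ : ∃ τ : ℤ, τ = P.ord t := ⟨_, rfl⟩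
  rw [← hτ] at hP hAo hBo
  obtain ⟨Q, hQ⟩ : ∃ Q : ℤ, Q = (q : ℤ) ^ (s + 1) := ⟨_, rfl⟩
  have hQ2 : 2 ≤ Q := by
    have h4 : 2 ≤ q ^ (s + 1) := hq2.trans (Nat.le_self_pow (by omega) q)
    rw [hQ]
    exact_mod_cast h4
  have hkind : ∀ c : Fin (s + 3) → F, N41.rt (k := k) X c ≠ 0 →
      ((q : ℤ) - 1) * P.ord (N41.rt (k := k) X c) = -(uB * τ) ∨
      (q : ℤ) * (Q - 1) * P.ord (N41.rt (k := k) X c) = (uB - uA) * τ ∨
      (q : ℤ) * Q * ((q : ℤ) - 1) * P.ord (N41.rt (k := k) X c) = uA * τ := by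
    intro c hc
    rw [hQ]
    exact kinds P hq2 u1 u2 u3 hP hc hA0 hB0 hAo hBo (hrel c)
  rw [← hQ] at u3 ⊢
  have hq1 : (0 : ℤ) < (q : ℤ) - 1 := by linarith
  have hQ1 : (0 : ℤ) < Q - 1 := by linarith
  have hτB : uB * τ < 0 := mul_neg_of_pos_of_neg (by linarith) hP
  have hτA : uA * τ < 0 := mul_neg_of_pos_of_neg u1 hP
  have hτD : (uB - uA) * τ < 0 := mul_neg_of_pos_of_neg (by linarith) hP
  have pmid : 0 < (q : ℤ) * (Q - 1) := mul_pos (by linarith) hQ1
  have ptop : 0 < (q : ℤ) * Q * ((q : ℤ) - 1) := mul_pos (mul_pos (by linarith) (by linarith)) hq1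
  -- the order of a root of the middle kind
  obtain ⟨m0, hm0⟩ : ∃ m0 : ℤ, m0 = -((-((uB - uA) * τ)) / ((q : ℤ) * (Q - 1))) := ⟨_, rfl⟩
  have hm0' : ∀ o : ℤ, m0 ≤ o ↔ (uB - uA) * τ ≤ (q : ℤ) * (Q - 1) * o := by
    intro o
    have h1 := Int.le_ediv_iff_mul_le (a := -o) (b := -((uB - uA) * τ)) pmid
    constructor
    · intro h
      have h2 := h1.1 (by omega)
      linarith
    · intro h
      have h2 := h1.2 (by linarith)
      omega
  have hm01 : m0 ≤ 1 := by
    rw [hm0' 1]
    linarith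
  -- kinds, by the size of the order
  have ksmall : ∀ c : Fin (s + 3) → F, N41.rt (k := k) X c ≠ 0 →
      1 ≤ P.ord (N41.rt (k := k) X c) →
      ((q : ℤ) - 1) * P.ord (N41.rt (k := k) X c) = -(uB * τ) := by
    intro c hc ho
    rcases hkind c hc with h | h | h
    · exact h
    · exfalso
      have : 0 < (q : ℤ) * (Q - 1) * P.ord (N41.rt (k := k) X c) := mul_pos pmid (by omega)
      linarith
    · exfalso
      have : 0 < (q : ℤ) * Q * ((q : ℤ) - 1) * P.ord (N41.rt (k := k) X c) :=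
        mul_pos ptop (by omega)
      linarith
  have topmid : ∀ o : ℤ, (q : ℤ) * Q * ((q : ℤ) - 1) * o = uA * τ →
      (q : ℤ) * (Q - 1) * o < (uB - uA) * τ := by
    intro o ho
    by_contra hc
    rw [not_lt] at hc
    have m1 : 0 ≤ (Q * ((q : ℤ) - 1)) * ((q : ℤ) * (Q - 1) * o - (uB - uA) * τ) :=
      mul_nonneg (mul_nonneg (by linarith) hq1.le) (by linarith)
    have m2 : (uA * (Q - 1) - (uB - uA) * (Q * ((q : ℤ) - 1))) * τ < 0 :=
      mul_neg_of_pos_of_neg (by linarith) hP
    have m3 : (Q * ((q : ℤ) - 1)) * ((q : ℤ) * (Q - 1) * o - (uB - uA) * τ) =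
        (Q - 1) * ((q : ℤ) * Q * ((q : ℤ) - 1) * o - uA * τ) +
          (uA * (Q - 1) - (uB - uA) * (Q * ((q : ℤ) - 1))) * τ := by ring
    rw [ho] at m3
    linarith
  have kmid : ∀ c : Fin (s + 3) → F, N41.rt (k := k) X c ≠ 0 →
      m0 ≤ P.ord (N41.rt (k := k) X c) → P.ord (N41.rt (k := k) X c) < 1 →
      (q : ℤ) * (Q - 1) * P.ord (N41.rt (k := k) X c) = (uB - uA) * τ := by
    intro c hc ho1 ho2
    rcases hkind c hc with h | h | h
    · exfalso
      have : ((q : ℤ) - 1) * P.ord (N41.rt (k := k) X c) ≤ 0 :=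
        mul_nonpos_of_nonneg_of_nonpos hq1.le (by omega)
      linarith
    · exact h
    · exfalso
      have h1 := topmid _ h
      have h2 := (hm0' _).1 ho1
      linarith
  have ktop : ∀ c : Fin (s + 3) → F, N41.rt (k := k) X c ≠ 0 →
      P.ord (N41.rt (k := k) X c) < m0 →
      (q : ℤ) * Q * ((q : ℤ) - 1) * P.ord (N41.rt (k := k) X c) = uA * τ := by
    intro c hc ho
    have h1 : ¬ m0 ≤ P.ord (N41.rt (k := k) X c) := by omega
    rcases hkind c hc with h | h | h
    · exfalso
      apply h1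
      have h2 : 0 < P.ord (N41.rt (k := k) X c) := by
        by_contra h3
        have : ((q : ℤ) - 1) * P.ord (N41.rt (k := k) X c) ≤ 0 :=
          mul_nonpos_of_nonneg_of_nonpos hq1.le (by omega)
        linarith
      omega
    · exfalso
      exact h1 ((hm0' _).2 h.ge)
    · exact h
  have hrootset1 : ∀ d : ℕ, 1 ≤ d → ∃ S : Finset k, S.card ≤ q ^ d ∧
      ∀ a, a ^ q ^ d + (-1) * a = 0 → a ∈ S := fun d hd =>
    N41.rootset (q ^ d) (Nat.one_le_pow _ _ (by omega)) (-1 : k) (by
      intro h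
      exfalso
      have : 2 ≤ q ^ d := hq2.trans (Nat.le_self_pow (by omega) q)
      omega)
  -- the dimensions
  have hdA : Module.finrank F (Fin (s + 3) → F) ≤
      Module.finrank F (N41.W (F := F) P X m0) + 1 := by
    by_cases hall : ∀ c, c ∈ N41.W (F := F) P X m0
    · have h1 : N41.W (F := F) P X m0 = ⊤ := Submodule.eq_top_iff'.2 hall
      rw [h1, finrank_top]
      omega
    · push Not at hall
      obtain ⟨c₁, hc₁⟩ := hall
      obtain ⟨hy0, hyo⟩ := P.not_ge.1 (fun h => hc₁ ((N41.mem_W P X m0 c₁).2 h))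
      have hk1 := ktop c₁ hy0 hyo
      obtain ⟨S, hS, hSm⟩ := hrootset1 1 le_rfl
      have h1 := N41.fil P hq2 hF ⊤ (N41.W (F := F) P X m0)
        (fun c => N41.rt (k := k) X c / N41.rt (k := k) X c₁)
        (fun c d => by rw [N41.rt_add, add_div]) (fun a c => by rw [N41.rt_smul, mul_div_assoc])
        (by
          intro c _
          by_cases hc : N41.rt (k := k) X c = 0
          · left
            show N41.rt (k := k) X c / _ = 0
            rw [hc, zero_div]
          · right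
            show 0 ≤ P.ord (N41.rt (k := k) X c / N41.rt (k := k) X c₁)
            rw [P.ord_div hc hy0]
            rcases lt_or_ge (P.ord (N41.rt (k := k) X c)) m0 with h2 | h2
            · have h3 := mul_left_cancel₀ ptop.ne' ((ktop c hc h2).trans hk1.symm)
              omega
            · omega)
        (by
          intro c _ h1
          show P.Ge _ _
          by_cases hc : N41.rt (k := k) X c = 0
          · exact Or.inl hc
          · right
            have h4 : 1 ≤ P.ord (N41.rt (k := k) X c / N41.rt (k := k) X c₁) :=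
              h1.resolve_left (div_ne_zero hc hy0)
            rw [P.ord_div hc hy0] at h4
            by_contra h2
            rw [not_le] at h2
            have h3 := mul_left_cancel₀ ptop.ne' ((ktop c hc h2).trans hk1.symm)
            omega)
        S 1 hS
        (fun c _ a ha => hSm a (by
          obtain ⟨o, ho⟩ : ∃ o : ℤ, o = P.ord (N41.rt (k := k) X c₁) := ⟨_, rfl⟩
          rw [← ho] at hk1
          have hlt := topmid _ hk1
          have ho0 : o < 0 := by
            by_contra hcon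
            have : 0 ≤ (q : ℤ) * (Q - 1) * o := mul_nonneg pmid.le (by omega)
            linarith
          refine fro_inj (n := s + 2) (by omega) hfrk ?_
          refine (quot P (by omega) hfrL (c1 := A) (c2 := 1) (c3 := B) (c4 := 1)
            (n1 := s + 2) (n2 := s + 3) (n3 := 1) (n4 := 0) one_ne_zero ?_ ?_ hy0 o
            ((q : ℤ) ^ (s + 3) * o) ho.symm (Or.inr ?_) ?_ (Or.inr ?_) (Or.inr ?_) a ha)
          · have := hrel c
            rw [pow_one, pow_zero, pow_one]
            linear_combination this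
          · have := hrel c₁
            rw [pow_one, pow_zero, pow_one]
            linear_combination this
          · rw [hAo]
            have e1 : (q : ℤ) ^ (s + 3) = q * q * Q := by rw [hQ]; ring
            have e2 : (q : ℤ) ^ (s + 2) = q * Q := by rw [hQ]; ring
            rw [e1, e2]
            linarith
          · rw [P.ord_one]
            ring
          · rw [hBo, pow_one]
            have e1 : (q : ℤ) ^ (s + 3) = q * q * Q := by rw [hQ]; ring
            rw [e1]
            linarith [(by ring : (q : ℤ) * q * Q * o = (q : ℤ) * Q * ((q : ℤ) - 1) * o +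
              (q : ℤ) * (Q - 1) * o + q * o)]
          · rw [P.ord_one, pow_zero, one_mul]
            have h2 : 1 ≤ (q : ℤ) ^ (s + 3) - 1 := by
              have h4 : 2 ≤ q ^ (s + 3) := hq2.trans (Nat.le_self_pow (by omega) q)
              have h5 : (2 : ℤ) ≤ (q : ℤ) ^ (s + 3) := by exact_mod_cast h4
              linarith
            have h6 : ((q : ℤ) ^ (s + 3) - 1) * o ≤ 1 * o :=
              mul_le_mul_of_nonpos_right h2 (by omega)
            linarith [(by ring : ((q : ℤ) ^ (s + 3) - 1) * o = (q : ℤ) ^ (s + 3) * o - o)]))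
      rwa [finrank_top] at h1
  have hdB : Module.finrank F (N41.W (F := F) P X m0) ≤
      Module.finrank F (N41.W (F := F) P X 1) + (s + 1) := by
    by_cases hall : ∀ c ∈ N41.W (F := F) P X m0, c ∈ N41.W (F := F) P X 1
    · have h1 : N41.W (F := F) P X m0 ≤ N41.W (F := F) P X 1 := hall
      exact (Submodule.finrank_mono h1).trans (by omega)
    · push Not at hall
      obtain ⟨c₁, hc₁, hc₁'⟩ := hall
      obtain ⟨hy0, hyo⟩ := P.not_ge.1 (fun h => hc₁' ((N41.mem_W P X 1 c₁).2 h))
      have hyo' : m0 ≤ P.ord (N41.rt (k := k) X c₁) :=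
        ((N41.mem_W P X m0 c₁).1 hc₁).resolve_left hy0
      have hk1 := kmid c₁ hy0 hyo' hyo
      obtain ⟨S, hS, hSm⟩ := hrootset1 (s + 1) (by omega)
      exact N41.fil P hq2 hF (N41.W (F := F) P X m0) (N41.W (F := F) P X 1)
        (fun c => N41.rt (k := k) X c / N41.rt (k := k) X c₁)
        (fun c d => by rw [N41.rt_add, add_div]) (fun a c => by rw [N41.rt_smul, mul_div_assoc])
        (by
          intro c hcm
          by_cases hc : N41.rt (k := k) X c = 0
          · left
            show N41.rt (k := k) X c / _ = 0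
            rw [hc, zero_div]
          · right
            show 0 ≤ P.ord (N41.rt (k := k) X c / N41.rt (k := k) X c₁)
            rw [P.ord_div hc hy0]
            have h2 : m0 ≤ P.ord (N41.rt (k := k) X c) :=
              ((N41.mem_W P X m0 c).1 hcm).resolve_left hc
            rcases lt_or_ge (P.ord (N41.rt (k := k) X c)) 1 with h4 | h4
            · have h3 := mul_left_cancel₀ pmid.ne' ((kmid c hc h2 h4).trans hk1.symm)
              omega
            · omega)
        (by
          intro c hcm h1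
          show P.Ge _ _
          by_cases hc : N41.rt (k := k) X c = 0
          · exact Or.inl hc
          · right
            have h4 : 1 ≤ P.ord (N41.rt (k := k) X c / N41.rt (k := k) X c₁) :=
              h1.resolve_left (div_ne_zero hc hy0)
            rw [P.ord_div hc hy0] at h4
            have h2 : m0 ≤ P.ord (N41.rt (k := k) X c) :=
              ((N41.mem_W P X m0 c).1 hcm).resolve_left hc
            by_contra h5
            rw [not_le] at h5
            have h3 := mul_left_cancel₀ pmid.ne' ((kmid c hc h2 h5).trans hk1.symm)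
            omega)
        S (s + 1) hS
        (fun c _ a ha => hSm a (by
          obtain ⟨o, ho⟩ : ∃ o : ℤ, o = P.ord (N41.rt (k := k) X c₁) := ⟨_, rfl⟩
          rw [← ho] at hk1
          have ho0 : o < 0 := by
            by_contra hcon
            have : 0 ≤ (q : ℤ) * (Q - 1) * o := mul_nonneg pmid.le (by omega)
            linarith
          have hlt : uA * τ < (q : ℤ) * Q * ((q : ℤ) - 1) * o := by
            by_contra hcon
            rw [not_lt] at hcon
            have m1 : (Q - 1) * ((q : ℤ) * Q * ((q : ℤ) - 1) * o - uA * τ) ≤ 0 :=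
              mul_nonpos_of_nonneg_of_nonpos hQ1.le (by linarith)
            have m2 : (uA * (Q - 1) - (uB - uA) * (Q * ((q : ℤ) - 1))) * τ < 0 :=
              mul_neg_of_pos_of_neg (by linarith) hP
            have m3 : (Q * ((q : ℤ) - 1)) * ((q : ℤ) * (Q - 1) * o - (uB - uA) * τ) =
                (Q - 1) * ((q : ℤ) * Q * ((q : ℤ) - 1) * o - uA * τ) +
                  (uA * (Q - 1) - (uB - uA) * (Q * ((q : ℤ) - 1))) * τ := by ring
            rw [hk1, sub_self, mul_zero] at m3
            linarith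
          refine fro_inj (n := 1) (by omega) hfrk ?_
          rw [show 1 + (s + 1) = s + 2 by ring]
          refine (quot P (by omega) hfrL (c1 := B) (c2 := A) (c3 := 1) (c4 := 1)
            (n1 := 1) (n2 := s + 2) (n3 := s + 3) (n4 := 0) hA0 ?_ ?_ hy0 o
            (uB * τ + q * o) ho.symm (Or.inr ?_) ?_ (Or.inr ?_) (Or.inr ?_) a ha)
          · have := hrel c
            rw [pow_one, pow_zero, pow_one]
            linear_combination this
          · have := hrel c₁
            rw [pow_one, pow_zero, pow_one]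
            linear_combination this
          · rw [hBo, pow_one]
            linarith
          · rw [hAo]
            have e2 : (q : ℤ) ^ (s + 2) = q * Q := by rw [hQ]; ring
            rw [e2]
            linarith
          · rw [P.ord_one]
            have e1 : (q : ℤ) ^ (s + 3) = q * q * Q := by rw [hQ]; ring
            rw [e1]
            linarith [(by ring : (q : ℤ) * q * Q * o = (q : ℤ) * Q * ((q : ℤ) - 1) * o +
              (q : ℤ) * (Q - 1) * o + q * o)]
          · rw [P.ord_one, pow_zero, one_mul]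
            have h2 : ((q : ℤ) - 1) * o < 0 := mul_neg_of_pos_of_neg hq1 ho0
            linarith [(by ring : ((q : ℤ) - 1) * o = q * o - o)]))
  have hdC : Module.finrank F (N41.W (F := F) P X 1) ≤ 1 := by
    by_cases hall : ∀ c ∈ N41.W (F := F) P X 1, c = 0
    · have h1 : N41.W (F := F) P X 1 = ⊥ := (Submodule.eq_bot_iff _).2 hall
      rw [h1, finrank_bot]
      omega
    · push Not at hall
      obtain ⟨c₁, hc₁, hc0⟩ := hall
      have hy0 : N41.rt (k := k) X c₁ ≠ 0 := fun h => hc0 (hinj _ h)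
      have hyo : 1 ≤ P.ord (N41.rt (k := k) X c₁) :=
        ((N41.mem_W P X 1 c₁).1 hc₁).resolve_left hy0
      have hk1 := ksmall c₁ hy0 hyo
      obtain ⟨S, hS, hSm⟩ := hrootset1 1 le_rfl
      have h1 := N41.fil P hq2 hF (N41.W (F := F) P X 1) ⊥
        (fun c => N41.rt (k := k) X c / N41.rt (k := k) X c₁)
        (fun c d => by rw [N41.rt_add, add_div]) (fun a c => by rw [N41.rt_smul, mul_div_assoc])
        (by
          intro c hcm
          by_cases hc : N41.rt (k := k) X c = 0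
          · left
            show N41.rt (k := k) X c / _ = 0
            rw [hc, zero_div]
          · right
            show 0 ≤ P.ord (N41.rt (k := k) X c / N41.rt (k := k) X c₁)
            rw [P.ord_div hc hy0]
            have h2 : 1 ≤ P.ord (N41.rt (k := k) X c) :=
              ((N41.mem_W P X 1 c).1 hcm).resolve_left hc
            have h3 := mul_left_cancel₀ hq1.ne' ((ksmall c hc h2).trans hk1.symm)
            omega)
        (by
          intro c hcm h1
          rw [Submodule.mem_bot]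
          by_contra hc'
          have hc : N41.rt (k := k) X c ≠ 0 := fun h => hc' (hinj _ h)
          have h4 : 1 ≤ P.ord (N41.rt (k := k) X c / N41.rt (k := k) X c₁) :=
            h1.resolve_left (div_ne_zero hc hy0)
          rw [P.ord_div hc hy0] at h4
          have h2 : 1 ≤ P.ord (N41.rt (k := k) X c) :=
            ((N41.mem_W P X 1 c).1 hcm).resolve_left hc
          have h3 := mul_left_cancel₀ hq1.ne' ((ksmall c hc h2).trans hk1.symm)
          omega)
        S 1 hS
        (fun c _ a ha => hSm a (by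
          obtain ⟨o, ho⟩ : ∃ o : ℤ, o = P.ord (N41.rt (k := k) X c₁) := ⟨_, rfl⟩
          rw [← ho] at hk1 hyo
          have hp1 : 0 < (q : ℤ) * Q * ((q : ℤ) - 1) * o := mul_pos ptop (by omega)
          have hp2 : 0 < (q : ℤ) * (Q - 1) * o := mul_pos pmid (by omega)
          refine fro_inj (n := 0) (by omega) hfrk ?_
          rw [zero_add]
          refine (quot P (by omega) hfrL (c1 := 1) (c2 := B) (c3 := 1) (c4 := A)
            (n1 := 0) (n2 := 1) (n3 := s + 3) (n4 := s + 2) hB0 ?_ ?_ hy0 o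
            o ho.symm (Or.inr ?_) ?_ (Or.inr ?_) (Or.inr ?_) a ha)
          · have := hrel c
            rw [pow_one, pow_zero, pow_one]
            linear_combination this
          · have := hrel c₁
            rw [pow_one, pow_zero, pow_one]
            linear_combination this
          · rw [P.ord_one, pow_zero]
            linarith
          · rw [hBo, pow_one]
            linarith
          · rw [P.ord_one]
            have e1 : (q : ℤ) ^ (s + 3) = q * q * Q := by rw [hQ]; ring
            rw [e1]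
            linarith [(by ring : (q : ℤ) * q * Q * o = (q : ℤ) * Q * ((q : ℤ) - 1) * o +
              (q : ℤ) * (Q - 1) * o + q * o)]
          · rw [hAo]
            have e2 : (q : ℤ) ^ (s + 2) = q * Q := by rw [hQ]; ring
            rw [e2]
            linarith [(by ring : (q : ℤ) * Q * o = (q : ℤ) * (Q - 1) * o + q * o)]))
      rwa [finrank_bot, zero_add] at h1
  rw [Module.finrank_fin_fun] at hdA
  have d0 : Module.finrank F (N41.W (F := F) P X m0) = s + 2 := by omega
  have d1 : Module.finrank F (N41.W (F := F) P X 1) = 1 := by omega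
  have h10 : N41.W (F := F) P X 1 ≤ N41.W (F := F) P X m0 := by
    intro c hc
    exact P.ge_mono ((N41.mem_W P X 1 c).1 hc) hm01
  -- the basis
  obtain ⟨v, hv, hvm⟩ := N41.build (F := F) (V := Fin (s + 3) → F) (s + 3)
    (fun j => if j = 0 then N41.W (F := F) P X 1 else
      if j ≤ s + 1 then N41.W (F := F) P X m0 else ⊤)
    (by
      intro j hj
      show j < Module.finrank F
        (if j = 0 then N41.W (F := F) P X 1 else
          if j ≤ s + 1 then N41.W (F := F) P X m0 else ⊤ : Submodule F (Fin (s + 3) → F))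
      by_cases h1 : j = 0
      · rw [if_pos h1, d1, h1]
        exact Nat.zero_lt_one
      · by_cases h2 : j ≤ s + 1
        · rw [if_neg h1, if_pos h2, d0]
          omega
        · rw [if_neg h1, if_neg h2, finrank_top, Module.finrank_fin_fun]
          exact hj) (s + 3) le_rfl
  have v0 : v 0 ∈ N41.W (F := F) P X 1 := by
    have h1 := hvm 0
    simpa using h1
  have vr : ∀ i, i.val < s + 2 → v i ∈ N41.W (F := F) P X m0 := by
    intro i hi
    have h1 := hvm i
    by_cases h0 : i.val = 0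
    · rw [if_pos h0] at h1
      exact h10 h1
    · rw [if_neg h0, if_pos (by omega)] at h1
      exact h1
  have v1 : ∀ i : Fin (s + 3), i.val < 1 → v i ∈ N41.W (F := F) P X 1 := by
    intro i hi
    have h0 : i = 0 := by
      apply Fin.ext
      show i.val = 0
      omega
    rw [h0]
    exact v0
  have hdet : (Matrix.of v).transpose.det ≠ 0 := by
    rw [Matrix.det_transpose]
    have h1 : IsUnit (Matrix.of v) := Matrix.linearIndependent_rows_iff_isUnit.1 hv
    exact ((Matrix.isUnit_iff_isUnit_det _).1 h1).ne_zero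
  obtain ⟨G₁, ρ₁, hC₁⟩ := ncb t X G₀ ρ (Matrix.of v).transpose hC hdet
  have hbas : ∀ c : Fin (s + 3) → F,
      ∑ i, cst k F L (c i) * (∑ j, cst k F L ((Matrix.of v).transpose j i) * X j) =
        N41.rt (k := k) X (∑ i, c i • v i) := fun c => N41.rt_basis X v c
  rw [hτ] at ksmall kmid ktop
  refine ⟨L, iL, iA, t,
    fun i => ∑ j, cst k F L ((Matrix.of v).transpose j i) * X j, G₁, ρ₁, P, ?_, ?_, htr, hC₁,
    hτ ▸ hP, ?_, ?_, ?_⟩
  · intro i
    have h1 := hrel (v i)
    rw [hA, hB] at h1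
    exact h1
  · intro c hc
    exact ind_basis X hind _ hdet c hc
  · have e : (∑ j, cst k F L ((Matrix.of v).transpose j 0) * X j) = N41.rt (k := k) X (v 0) := rfl
    show ((q : ℤ) - 1) * P.ord (∑ j, cst k F L ((Matrix.of v).transpose j 0) * X j) =
      -(uB * P.ord t)
    rw [e]
    have hne : N41.rt (k := k) X (v 0) ≠ 0 := fun h => hv.ne_zero 0 (hinj _ h)
    exact ksmall _ hne (((N41.mem_W P X 1 _).1 v0).resolve_left hne)
  · rintro c hc0 ⟨i, hi, hci⟩
    show (q : ℤ) * (Q - 1) *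
      P.ord (∑ i, cst k F L (c i) * (∑ j, cst k F L ((Matrix.of v).transpose j i) * X j)) = _
    rw [hbas c]
    have h1 : ∑ i, c i • v i ∈ N41.W (F := F) P X m0 := by
      refine Submodule.sum_mem _ fun j _ => ?_
      rcases lt_or_ge j.val (s + 2) with h | h
      · exact Submodule.smul_mem _ _ (vr j h)
      · have h5 : j = Fin.last (s + 2) := by
          apply Fin.ext
          rw [Fin.val_last]
          omega
        rw [h5, hc0, zero_smul]
        exact Submodule.zero_mem _
    have h2 : ¬ ∑ i, c i • v i ∈ N41.W (F := F) P X 1 := by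
      intro h2
      refine hci (N41.coord (s := 1) (by omega) v hv _ d1 v1 c h2 i ?_)
      by_contra h3
      apply hi
      apply Fin.ext
      show i.val = 0
      omega
    obtain ⟨h3, h4⟩ := P.not_ge.1 (fun h => h2 ((N41.mem_W P X 1 _).2 h))
    exact kmid _ h3 (((N41.mem_W P X m0 _).1 h1).resolve_left h3) h4
  · intro c hci
    show (q : ℤ) * Q * ((q : ℤ) - 1) *
      P.ord (∑ i, cst k F L (c i) * (∑ j, cst k F L ((Matrix.of v).transpose j i) * X j)) = _
    rw [hbas c]
    have h2 : ¬ ∑ i, c i • v i ∈ N41.W (F := F) P X m0 := by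
      intro h2
      exact hci (N41.coord (s := s + 2) (by omega) v hv _ d0 vr c h2 (Fin.last (s + 2))
        (by rw [Fin.val_last]))
    obtain ⟨h3, h4⟩ := P.not_ge.1 (fun h => h2 ((N41.mem_W P X m0 _).2 h))
    exact ktop _ h3 h4

end G41

end Pool.CND
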