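import Pool.Agent.H37.CTP.Stmts
import Pool.Agent.H26.CTP.G41

/-!
# Row R41 of the board `ctp`
-/

set_option autoImplicit false

namespace Pool.CND

open Finset Polynomial

theorem r41_thm (hEXI : S_EXI) : S_R41 := by
  intro k F _ _ _ _ f q s hch hf hq hF hQ4
  have hq2 : 2 ≤ q := by
    rw [hq]
    calc 2 = 2 ^ 1 := (pow_one 2).symm
      _ ≤ 2 ^ f := Nat.pow_le_pow_right (by norm_num) hf
  have hqz : (2 : ℤ) ≤ q := by exact_mod_cast hq2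
  obtain ⟨Q, hQ⟩ : ∃ Q : ℕ, Q = q ^ (s + 1) := ⟨_, rfl⟩
  have hQz : ((Q : ℕ) : ℤ) = (q : ℤ) ^ (s + 1) := by rw [hQ]; push_cast; rfl
  rw [← hQ] at hQ4
  have hQ4z : (4 : ℤ) ≤ Q := by exact_mod_cast hQ4
  have h1 : 1 ≤ q * (Q - 2) := Nat.one_le_iff_ne_zero.2 (Nat.mul_ne_zero (by omega) (by omega))
  have cA : (((q - 1) * (Q - 2) : ℕ) : ℤ) = ((q : ℤ) - 1) * (Q - 2) := by
    rw [Nat.cast_mul, Nat.cast_sub (by omega), Nat.cast_sub (by omega)]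
    push_cast
    ring
  have cB : ((q * (Q - 2) - 1 : ℕ) : ℤ) = (q : ℤ) * (Q - 2) - 1 := by
    rw [Nat.cast_sub h1, Nat.cast_mul, Nat.cast_sub (by omega)]
    push_cast
    ring
  have hmon : ∀ (m : ℕ) (u : ℤ), ((m : ℕ) : ℤ) = u → ∀ (L : Type) [Field L] [Algebra k L] (t : L)
      (P : Place k L), t ≠ 0 → P.ord t < 0 →
      aeval t (Polynomial.X ^ m : k[X]) ≠ 0 ∧
        P.ord (aeval t (Polynomial.X ^ m : k[X])) = u * P.ord t := by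
    intro m u hu L _ _ t P ht0 _
    rw [map_pow, Polynomial.aeval_X]
    exact ⟨pow_ne_zero _ ht0, by rw [P.ord_pow ht0, hu]⟩
  have hA0 : 0 < ((q : ℤ) - 1) * (Q - 2) := mul_pos (by linarith) (by linarith)
  have hdiff : ((q : ℤ) * (Q - 2) - 1) - ((q : ℤ) - 1) * (Q - 2) = Q - 3 := by ring
  obtain ⟨L, iL, iA, t, X, G₀, ρ, P, hrel, hind, htr, hC, hP, hs, hm, ht⟩ :=
    G41.main hEXI 2 k F f q s (Polynomial.X ^ ((q - 1) * (Q - 2)))
      (Polynomial.X ^ (q * (Q - 2) - 1)) (((q : ℤ) - 1) * (Q - 2)) ((q : ℤ) * (Q - 2) - 1)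
      Nat.prime_two hch hf hq hF (hmon _ _ cA) (hmon _ _ cB) hA0
      (by linarith) (by
        rw [hdiff, ← hQz]
        have h2 : (Q : ℤ) * ((q : ℤ) - 1) * ((Q : ℤ) - 3) <
            (Q : ℤ) * ((q : ℤ) - 1) * ((Q : ℤ) - 3) + 2 * ((q : ℤ) - 1) := by linarith
        linarith [(by ring : ((q : ℤ) - 1) * ((Q : ℤ) - 2) * ((Q : ℤ) - 1) =
          (Q : ℤ) * ((q : ℤ) - 1) * ((Q : ℤ) - 3) + 2 * ((q : ℤ) - 1)),
          (by ring : ((Q : ℤ) - 3) * ((Q : ℤ) * ((q : ℤ) - 1)) =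
            (Q : ℤ) * ((q : ℤ) - 1) * ((Q : ℤ) - 3))])
  rw [hdiff] at hm
  rw [← hQz] at hm ht
  simp only [map_pow, Polynomial.aeval_X] at hrel
  refine ⟨L, iL, iA, t, X, G₀, ρ, P, ⟨?_, hind, htr⟩, hC, ⟨hP, ?_, ?_, ?_⟩⟩
  · intro i
    rw [← hQ]
    exact hrel i
  · rw [← hQz]
    exact hs
  · intro c h2 h3
    rw [← hQz]
    exact hm c h2 h3
  · intro c h2
    rw [← hQz]
    have h3 := ht c h2
    have h4 : ((q : ℤ) - 1) * ((q : ℤ) * Q * P.ord (∑ i, cst k F L (c i) * X i)) =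
        ((q : ℤ) - 1) * (((Q : ℤ) - 2) * P.ord t) := by
      linear_combination h3
    exact mul_left_cancel₀ (by linarith : ((q : ℤ) - 1) ≠ 0) h4

end Pool.CND
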